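import Pool.Agent.L7h80.RC.StmB

/-!
# Project RD (MP_90188c_ag), part RNK: the derivations of a reduced curve embed in the ring
-/

set_option autoImplicit false

namespace Pool.Agent.L7h73.RC

open MvPowerSeries
open Pool.Agent.L7h80.RC

variable {n : ℕ}

/-- the derivation with the coefficients `a` -/
noncomputable def DD (a : Fin n → PS n) (f : PS n) : PS n := ∑ i, a i * pderiv ℂ i f

theorem DD_mul (a : Fin n → PS n) (f g : PS n) : DD a (f * g) = f * DD a g + g * DD a f := by
  unfold DD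
  rw [Finset.mul_sum, Finset.mul_sum, ← Finset.sum_add_distrib]
  refine Finset.sum_congr rfl fun i _ => ?_
  rw [Derivation.leibniz, smul_eq_mul, smul_eq_mul]
  ring

/-- [RNK] -/
theorem s_RNK (hWPR : S_WPR) : S_RNK := by
  classical
  intro n I B hI hpr hmin hpar
  have hmem : ∀ f : PS n, f ∈ I ↔ ∀ p ∈ B, f ∈ p := by
    intro f
    rw [hI]
    simp [Submodule.mem_finsetInf]
  -- separating elements
  have hsep : ∀ p ∈ B, ∃ h : PS n, h ∉ p ∧ ∀ q ∈ B, q ≠ p → h ∈ q := by
    intro p hp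
    have hx : ∀ q ∈ B.erase p, ∃ y : PS n, y ∈ q ∧ y ∉ p := by
      intro q hq
      rw [Finset.mem_erase] at hq
      by_contra hcon
      push Not at hcon
      exact hq.1 (hmin q hq.2 p hp hcon).symm
    choose! y hy using hx
    refine ⟨∏ q ∈ B.erase p, y q, ?_, ?_⟩
    · have := hpr p hp
      intro h
      rw [Ideal.IsPrime.prod_mem_iff] at h
      obtain ⟨q, hq, h⟩ := h
      exact (hy q hq).2 h
    · intro q hq hqp
      have hq' : q ∈ B.erase p := Finset.mem_erase.2 ⟨hqp, hq⟩
      exact Ideal.mem_of_dvd _ (Finset.dvd_prod_of_mem y hq') (hy q hq').1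
  choose! h hh using hsep
  rcases B.eq_empty_or_nonempty with hB | ⟨p0, hp0⟩
  · refine ⟨0, fun a _ _ i => ?_⟩
    rw [hmem]
    intro p hp
    rw [hB] at hp
    exact absurd hp (Finset.notMem_empty _)
  haveI : Nonempty (Fin n) := ⟨(hpar p0 hp0).choose⟩
  choose! i0 hi0 using hpar
  refine ⟨fun i => ∑ p ∈ B.filter (fun p => i0 p = i), h p, ?_⟩
  intro a ha hsum
  have hsum' : ∑ p ∈ B, h p * a (i0 p) ∈ I := by
    have e1 : ∑ i, (∑ p ∈ B.filter (fun p => i0 p = i), h p) * a i = ∑ p ∈ B, h p * a (i0 p) := by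
      rw [← Finset.sum_fiberwise (s := B) (g := i0)]
      refine Finset.sum_congr rfl fun i _ => ?_
      rw [Finset.sum_mul]
      refine Finset.sum_congr rfl fun p hp => ?_
      rw [(Finset.mem_filter.1 hp).2]
    rw [← e1]
    exact hsum
  have ha0 : ∀ p ∈ B, a (i0 p) ∈ p := by
    intro p hp
    have := hpr p hp
    have h1 : h p * a (i0 p) ∈ p := by
      have h2 := (hmem _).1 hsum' p hp
      rw [← Finset.add_sum_erase B _ hp] at h2
      refine (Ideal.add_mem_iff_left p ?_).1 h2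
      refine Ideal.sum_mem _ fun q hq => ?_
      rw [Finset.mem_erase] at hq
      exact Ideal.mul_mem_right _ _ ((hh q hq.2).2 p hp hq.1.symm)
    exact (this.mem_or_mem h1).resolve_left (hh p hp).1
  have hD : ∀ p ∈ B, ∀ f ∈ p, DD a f ∈ p := by
    intro p hp f hf
    have := hpr p hp
    have h1 : h p * f ∈ I := by
      rw [hmem]
      intro q hq
      by_cases hqp : q = p
      · rw [hqp]
        exact Ideal.mul_mem_left _ _ hf
      · exact Ideal.mul_mem_right _ _ ((hh p hp).2 q hq hqp)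
    have h2 : DD a (h p * f) ∈ p := (hmem _).1 (ha _ h1) p hp
    rw [DD_mul] at h2
    have h3 : h p * DD a f ∈ p := (Ideal.add_mem_iff_left p (Ideal.mul_mem_right _ _ hf)).1 h2
    exact (this.mem_or_mem h3).resolve_left (hh p hp).1
  intro i
  rw [hmem]
  intro p hp
  by_cases hi : i = i0 p
  · rw [hi]
    exact ha0 p hp
  have hpp := hpr p hp
  obtain ⟨G, hG, hG0, hGi⟩ := hWPR n p hpp (i0 p) (hi0 p hp).1 (hi0 p hp).2 i hi
  have h1 := hD p hp G hG
  unfold DD at h1
  rw [← Finset.add_sum_erase Finset.univ _ (Finset.mem_univ i)] at h1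
  have h2 : ∑ k ∈ Finset.univ.erase i, a k * pderiv ℂ k G ∈ p := by
    refine Ideal.sum_mem _ fun k hk => ?_
    rw [Finset.mem_erase] at hk
    by_cases hk0 : k = i0 p
    · rw [hk0]
      exact Ideal.mul_mem_right _ _ (ha0 p hp)
    · rw [hG0 k hk.1 hk0, mul_zero]
      exact Ideal.zero_mem _
  have h3 : a i * pderiv ℂ i G ∈ p := (Ideal.add_mem_iff_left p h2).1 h1
  exact (hpp.mem_or_mem h3).resolve_right hGi

end Pool.Agent.L7h73.RC
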